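import Pool.Agent.R205.LF.Lin

/-!
# Three arbitrary transformations, linear polynomials, one of the transformations totally ergodic

The case `ℓ = 3`, `p_i(n) = c_i n` with pairwise distinct integers `c_i`, of the recurrence question with an extra
variable `m`, if at least one of the three measure preserving maps (no matter which) is totally ergodic or, more
generally, all its powers have at most countably many ergodic components. Nothing is assumed about the other two maps;
the maps need not commute and need not be invertible.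

The proof extends the two-parameter machinery of `Pool.Agent.Helper498.NCR` (starting files; applied there to the forms `m`,
`m+n`, `m+2n`) to arbitrary steps of the shifts: see `Pool.Agent.R205.LF.G` (van der Corput inequality with arbitrary
steps, eigenvectors of powers of an isometry) and `Pool.Agent.R205.LF.Lin`.
-/

set_option autoImplicit false
open MeasureTheory

namespace Pool.Agent.Results.MP_9d6b4a_an.ThreeLinearOneErgodic

universe u

/-- `T` has at most countably many ergodic components: the space is covered, up to a null set,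
by countably many measurable sets `B i` such that `T` is (measure preserving and) ergodic for
the restriction of `μ` to `B i`.  If `T` is ergodic one may take `B i = Ω` for all `i`. -/
def CountablyManyErgodicComponents {Ω : Type u} [MeasurableSpace Ω] (μ : Measure Ω)
    (T : Ω → Ω) : Prop :=
  ∃ B : ℕ → Set Ω, (∀ i, MeasurableSet (B i)) ∧ (∀ i, Ergodic T (μ.restrict (B i))) ∧
    μ (⋃ i, B i)ᶜ = 0

/-- Sanity check: an ergodic transformation qualifies. -/
theorem of_ergodic {Ω : Type u} [MeasurableSpace Ω] (μ : Measure Ω) (T : Ω → Ω)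
    (h : Ergodic T μ) : CountablyManyErgodicComponents μ T :=
  ⟨fun _ => Set.univ, fun _ => MeasurableSet.univ, fun _ => by rwa [Measure.restrict_univ],
    by rw [Set.iUnion_const, Set.compl_univ, measure_empty]⟩

theorem result :
    ∀ (Ω : Type u) [MeasurableSpace Ω] (μ : Measure Ω) [IsProbabilityMeasure μ]
      (T : Fin 3 → Ω → Ω), (∀ i, MeasurePreserving (T i) μ μ) →
      (∃ i, ∀ k : ℕ, 1 ≤ k → CountablyManyErgodicComponents μ (T i)^[k]) →
      ∀ c : Fin 3 → ℤ, Function.Injective c →
      ∀ A : Set Ω, MeasurableSet A → 0 < μ A →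
        ∃ m n : ℕ, 1 ≤ m ∧ 1 ≤ n ∧ (∀ i, 1 ≤ (m : ℤ) + c i * n) ∧
          0 < μ (A ∩ ⋂ i, (T i)^[((m : ℤ) + c i * n).toNat] ⁻¹' A) := by
  intro Ω _ μ _ T hT hcomp c hc A hA hμA'
  have hμA : μ A ≠ 0 := hμA'.ne'
  set K : ℕ := (c 0).natAbs + (c 1).natAbs + (c 2).natAbs with hK
  have hcK : ∀ i, 0 ≤ c i + K := by
    intro i
    fin_cases i
    · change 0 ≤ c 0 + K; omega
    · change 0 ≤ c 1 + K; omega
    · change 0 ≤ c 2 + K; omega
  set c' : Fin 3 → ℕ := fun i => (c i + K).toNat with hc'
  have hc'e : ∀ i, ((c' i : ℕ) : ℤ) = c i + K := fun i => Int.toNat_of_nonneg (hcK i)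
  have hne : ∀ i j, i ≠ j → c' i ≠ c' j := by
    intro i j hij h
    apply hij
    apply hc
    have h1 := hc'e i
    have h2 := hc'e j
    rw [h] at h1
    linarith
  have key : ∃ m n : ℕ, 1 ≤ m ∧ 1 ≤ n ∧
      μ (A ∩ ⋂ i, (T i)^[m + c' i * n] ⁻¹' A) ≠ 0 := by
    have red : ∀ i j k : Fin 3, i ≠ j → i ≠ k → j ≠ k → (∀ l, l = i ∨ l = j ∨ l = k) →
        (∀ q : ℕ, 1 ≤ q → CountablyManyErgodicComponents μ (T i)^[q]) →
        ∃ m n : ℕ, 1 ≤ m ∧ 1 ≤ n ∧ μ (A ∩ ⋂ i, (T i)^[m + c' i * n] ⁻¹' A) ≠ 0 := by
      intro i j k hij hik hjk hall hq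
      have hw : 1 ≤ Pool.Agent.R205.LF.ds (c' i) (c' j) * Pool.Agent.R205.LF.ds (c' i) (c' k) :=
        Nat.one_le_iff_ne_zero.2 (Nat.mul_ne_zero
          (by have := Pool.Agent.R205.LF.ds_pos (hne i j hij); omega)
          (by have := Pool.Agent.R205.LF.ds_pos (hne i k hik); omega))
      obtain ⟨m, n, hm, hn, h⟩ := Pool.Agent.R205.LF.lin_core (hT i) (hT j) (hT k) (c' i) (c' j) (c' k)
        (hne i j hij) (hne i k hik) (hne j k hjk) (hq _ hw) hA hμA
      refine ⟨m, n, hm, hn, fun h0 => h ?_⟩
      refine le_antisymm (le_trans (measure_mono ?_) h0.le) bot_le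
      rintro x ⟨⟨⟨h1, h2⟩, h3⟩, h4⟩
      refine ⟨h1, Set.mem_iInter.2 fun l => ?_⟩
      rcases hall l with rfl | rfl | rfl
      · exact h2
      · exact h3
      · exact h4
    obtain ⟨i, hi⟩ := hcomp
    fin_cases i
    · exact red 0 1 2 (by decide) (by decide) (by decide) (by decide) hi
    · exact red 1 0 2 (by decide) (by decide) (by decide) (by decide) hi
    · exact red 2 0 1 (by decide) (by decide) (by decide) (by decide) hi
  obtain ⟨m, n, hm, hn, h⟩ := key
  have hexp : ∀ i, ((m + K * n : ℕ) : ℤ) + c i * n = ((m + c' i * n : ℕ) : ℤ) := by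
    intro i
    push_cast
    rw [hc'e i]
    ring
  refine ⟨m + K * n, n, by omega, hn, fun i => ?_, ?_⟩
  · rw [hexp i]
    have : 1 ≤ m + c' i * n := by omega
    exact_mod_cast this
  · simp only [hexp, Int.toNat_natCast]
    exact pos_iff_ne_zero.2 h

end Pool.Agent.Results.MP_9d6b4a_an.ThreeLinearOneErgodic
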