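import Pool.Agent.R497.NC.Fin
import Pool.Agent.R497.NC.Chu
import Pool.Agent.R33.NC.VDC
import Pool.Agent.R746.NC.PME
import Pool.Agent.R316.NC.MET
import Pool.Agent.Y507.NC.DEC

set_option autoImplicit false

/-!
# Polynomial recurrence with an extra variable for two arbitrary transformations

Let `T_i` be invertible measure preserving maps of a probability space, with NO relation between them, and let
`p_i` be integer polynomials with `p_i(0) = 0`. Suppose that `p_{i₁} ≠ p_{i₂}`, where `T_{i₁}` and `T_{i₂}` are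
arbitrary, and that for the other indices `i` the set `A` can be approximated by sets which are invariant under some
power of `T_i` (for instance `T_i` of finite order, or an odometer). Then for every `ε > 0` there are arbitrarily large
`m` and `n` with `μ(A ∩ ⋂ T_i^{-(m+p_i(n))} A) > μ(A)^3 - ε`. In particular (`ℓ = 2`) this answers the question
in the affirmative for two arbitrary transformations and arbitrary distinct polynomials.

Proof. Let `f = 1_A`, let `r` be a highly divisible number and put `m = r m'`, `n = r n'`; then all exponents are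
divisible by `r`. Write `f = u_i + e_i + h_i`, with `u_i = E(f | T_i^r-invariant sets)`, `h_i = f - E(f | K_i)`, where
`K_i` is the sigma-algebra generated by the sets invariant under some power of `T_i`; `e_i` is small in `L^1` if `r` is
highly divisible (Lévy's theorem). `u_i` does not change under the exponents divisible by `r`, and
`∫ f u_1 u_2 ≥ μ(A)^3`. In the term with `h_1(T_1^{m+p_1(n)} x) f(T_2^{m+p_2(n)} x)`, the average over `m` allows one to
replace `m` by `m - p_2(n)`, so that the second factor no longer depends on `n`, and the average over `n` of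
`h_1(T_1^{m + p_1(n) - p_2(n)} x)` tends to `0` in `L^1` by the mean ergodic theorem along the nonconstant polynomial
`p_1 - p_2` (van der Corput). In the term with `u_1 h_2(T_2^{m+p_2(n)} x)` the average over `m` suffices.
-/

namespace Pool.Agent.Results.MP_9d6b4a_an.TwoArbitrary

open MeasureTheory

theorem result : ∀ (α : Type) [MeasurableSpace α] (μ : Measure α) [IsProbabilityMeasure μ]
    (ℓ : ℕ) (T : Fin ℓ → Equiv.Perm α) (p : Fin ℓ → Polynomial ℤ),
    (∀ i, Measurable (T i)) → (∀ i, Measurable (T i).symm) → (∀ i, MeasurePreserving (T i) μ μ) →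
    (∀ i, (p i).coeff 0 = 0) → ∀ A : Set α, MeasurableSet A → ∀ i₁ i₂ : Fin ℓ, p i₁ ≠ p i₂ →
    (∀ i, i ≠ i₁ → i ≠ i₂ → ∀ δ : ℝ, 0 < δ → ∃ r : ℕ, 0 < r ∧ ∃ B : Set α, MeasurableSet B ∧
      ⇑(T i ^ r) ⁻¹' B = B ∧ μ.real (symmDiff A B) ≤ δ) →
    ∀ ε : ℝ, 0 < ε → ∀ K : ℕ, ∃ m n : ℕ, K < m ∧ K < n ∧
      μ.real A ^ 3 - ε < μ.real (A ∩ ⋂ i, ⇑(T i ^ ((m : ℤ) + (p i).eval (n : ℤ))) ⁻¹' A) :=
  Pool.Agent.R497.NC.tFIN (Pool.Agent.R497.NC.tTWO
    (Pool.Agent.R497.NC.tMET (Pool.Agent.R497.NC.tPME Pool.Agent.R497.NC.tVDC))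
    Pool.Agent.R497.NC.tDEC Pool.Agent.R497.NC.tCHU)

end Pool.Agent.Results.MP_9d6b4a_an.TwoArbitrary
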